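import Pool.Agent.Helper29.E3.St3

/-!
# Project E3: module NATX, choice of the height
-/

set_option autoImplicit false

namespace Pool.Agent.Helper83.E3

open Finset ArithmeticFunction
open Pool.Agent.Helper29.E3 Pool.Agent.Helper49.PC
open Pool.Agent.Helper48.BK (ex th lz Vz Pz gs nd Apx AdN Sol thd)
open scoped ComplexConjugate

/-- the three products are at most `D = a b c / min` -/
private theorem D_NATX (a b c : ℕ) (ha : 1 ≤ a) (hb : 1 ≤ b) (hc : 1 ≤ c) (D : ℝ)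
    (hD : D = ((a * b * c : ℕ) : ℝ) / (min a (min b c) : ℕ)) :
    ((b * c : ℕ) : ℝ) ≤ D ∧ ((a * c : ℕ) : ℝ) ≤ D ∧ ((a * b : ℕ) : ℝ) ≤ D ∧
      ((max a (max b c) : ℕ) : ℝ) ≤ D ∧ 1 ≤ D ∧ ((a * b * c : ℕ) : ℝ) ≤ D ^ 2 := by
  have haR : (1 : ℝ) ≤ a := by exact_mod_cast ha
  have hbR : (1 : ℝ) ≤ b := by exact_mod_cast hb
  have hcR : (1 : ℝ) ≤ c := by exact_mod_cast hc
  have hμ1 : 1 ≤ min a (min b c) := le_min ha (le_min hb hc)
  have hμa : min a (min b c) ≤ a := min_le_left _ _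
  have hμb : min a (min b c) ≤ b := (min_le_right _ _).trans (min_le_left _ _)
  have hμc : min a (min b c) ≤ c := (min_le_right _ _).trans (min_le_right _ _)
  generalize min a (min b c) = μ at *
  have hμ0 : (0 : ℝ) < μ := by exact_mod_cast hμ1
  have hμaR : (μ : ℝ) ≤ a := by exact_mod_cast hμa
  have hμbR : (μ : ℝ) ≤ b := by exact_mod_cast hμb
  have hμcR : (μ : ℝ) ≤ c := by exact_mod_cast hμc
  have hDμ : D * μ = (a : ℝ) * b * c := by rw [hD]; push_cast; field_simp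
  clear hD
  have hbc : ((b * c : ℕ) : ℝ) ≤ D := by
    push_cast
    have h5 : (b : ℝ) * c * μ ≤ D * μ := by
      rw [hDμ]
      have h6 : (b : ℝ) * c * μ ≤ (b : ℝ) * c * a := mul_le_mul_of_nonneg_left hμaR (by positivity)
      linarith
    exact le_of_mul_le_mul_right h5 hμ0
  have hac : ((a * c : ℕ) : ℝ) ≤ D := by
    push_cast
    have h5 : (a : ℝ) * c * μ ≤ D * μ := by
      rw [hDμ]
      have h6 : (a : ℝ) * c * μ ≤ (a : ℝ) * c * b := mul_le_mul_of_nonneg_left hμbR (by positivity)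
      linarith
    exact le_of_mul_le_mul_right h5 hμ0
  have hab : ((a * b : ℕ) : ℝ) ≤ D := by
    push_cast
    have h5 : (a : ℝ) * b * μ ≤ D * μ := by
      rw [hDμ]
      have h6 : (a : ℝ) * b * μ ≤ (a : ℝ) * b * c := mul_le_mul_of_nonneg_left hμcR (by positivity)
      linarith
    exact le_of_mul_le_mul_right h5 hμ0
  have haD : (a : ℝ) ≤ D := by
    refine le_trans ?_ hab; push_cast; exact le_mul_of_one_le_right (by linarith) hbR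
  have hbD : (b : ℝ) ≤ D := by
    refine le_trans ?_ hab; push_cast; exact le_mul_of_one_le_left (by linarith) haR
  have hcD : (c : ℝ) ≤ D := by
    refine le_trans ?_ hac; push_cast; exact le_mul_of_one_le_left (by linarith) haR
  have hmD : ((max a (max b c) : ℕ) : ℝ) ≤ D := by
    push_cast
    exact max_le haD (max_le hbD hcD)
  have hD1 : 1 ≤ D := haR.trans haD
  refine ⟨hbc, hac, hab, hmD, hD1, ?_⟩
  push_cast
  rw [← hDμ, sq]
  exact mul_le_mul_of_nonneg_left (hμaR.trans haD) (by linarith)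

/-- a prime in a window -/
private theorem win_NATX (a p e Q Z : ℕ) (D : ℝ) (ha : 1 ≤ a) (he : e ≤ 16)
    (h : a * p ≤ e * (a * Q * Z)) (hQ : (Q : ℝ) ≤ D) : (p : ℝ) ≤ 16 * (D * Z) := by
  have h6 : a * p ≤ a * (e * (Q * Z)) := by
    calc a * p ≤ e * (a * Q * Z) := h
      _ = a * (e * (Q * Z)) := by ring
  have h5 : p ≤ e * (Q * Z) := Nat.le_of_mul_le_mul_left h6 (by omega)
  have h7 : p ≤ 16 * (Q * Z) := h5.trans (Nat.mul_le_mul_right _ he)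
  have h8 : (p : ℝ) ≤ 16 * ((Q : ℝ) * Z) := by exact_mod_cast h7
  have h9 : (Q : ℝ) * Z ≤ D * Z := mul_le_mul_of_nonneg_right hQ (Nat.cast_nonneg _)
  linarith

/-- the power condition of POSX -/
private theorem pow_NATX (N Q Z : ℕ) (D : ℝ) (hN : 1 ≤ N) (hD : 1 ≤ D) (hQ : (Q : ℝ) ≤ D)
    (hZ : D ^ (1 / 2 + 1 / (2 * (N : ℝ))) ≤ Z) : Q ^ (N + 1) ≤ (16 * Z) ^ (2 * N) := by
  have hN0 : (0 : ℝ) < N := by exact_mod_cast hN
  have hD0 : 0 ≤ D := by linarith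
  have h1 : D ^ (N + 1) ≤ (Z : ℝ) ^ (2 * N) := by
    have h2 : (D ^ (1 / 2 + 1 / (2 * (N : ℝ)))) ^ (2 * N) = D ^ (N + 1) := by
      rw [← Real.rpow_natCast (D ^ (1 / 2 + 1 / (2 * (N : ℝ)))) (2 * N), ← Real.rpow_mul hD0,
        ← Real.rpow_natCast D (N + 1)]
      congr 1
      push_cast
      field_simp
    rw [← h2]
    exact pow_le_pow_left₀ (Real.rpow_nonneg hD0 _) hZ _
  have h3 : (Q : ℝ) ^ (N + 1) ≤ ((16 : ℝ) * Z) ^ (2 * N) := by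
    refine (pow_le_pow_left₀ (Nat.cast_nonneg _) hQ _).trans (h1.trans ?_)
    exact pow_le_pow_left₀ (Nat.cast_nonneg _) (by linarith [(Nat.cast_nonneg Z : (0 : ℝ) ≤ Z)]) _
  exact_mod_cast h3

/-- the final estimate -/
private theorem fin_NATX (D u Z s E : ℝ) (hD : 1 ≤ D) (hs : 0 ≤ s)
    (h : D * Z ≤ (1 / 6) * u + D ∨ D * Z ≤ D * (D ^ (1 / 2 + s) + 1)) (hu : 0 ≤ u)
    (hE : E = 8 / 3 * u) : 16 * (D * Z) ≤ E + 32 * D ^ (3 / 2 + s) := by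
  have hD0 : 0 < D := by linarith
  have h1 : D ^ (3 / 2 + s) = D * D ^ (1 / 2 + s) := by
    rw [show (3 / 2 + s : ℝ) = 1 + (1 / 2 + s) by ring, Real.rpow_add hD0, Real.rpow_one]
  have h2 : 1 ≤ D ^ (1 / 2 + s) := Real.one_le_rpow hD (by linarith)
  have h3 : D ≤ D * D ^ (1 / 2 + s) := le_mul_of_one_le_right hD0.le h2
  rw [h1]
  rcases h with h | h
  · rw [hE]; linarith
  · rw [mul_add, mul_one] at h
    rw [hE]; linarith

theorem hNATX (h1 : StPOSX) : StNATX := by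
  intro K N hN
  obtain ⟨x₁, h1⟩ := h1 (K + 1) N
  obtain ⟨X₀, hX₀⟩ : ∃ X₀ : ℕ, X₀ = max x₁ ⌈Real.exp (5 ^ K : ℝ)⌉₊ := ⟨_, rfl⟩
  refine ⟨6 * X₀ ^ 5 + 1, ?_⟩
  intro a b c d ha hb hc hAd hx hEE hg
  obtain ⟨D, hD⟩ : ∃ D : ℝ, D = ((a * b * c : ℕ) : ℝ) / (min a (min b c) : ℕ) := ⟨_, rfl⟩
  obtain ⟨hbcD, hacD, habD, hm'D, hD1, hPD⟩ := D_NATX a b c ha hb hc D hD
  rw [← hD]
  have hμ1 : 1 ≤ min a (min b c) := le_min ha (le_min hb hc)
  have hm'1 : 1 ≤ max a (max b c) := ha.trans (le_max_left _ _)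
  generalize max a (max b c) = m' at *
  generalize min a (min b c) = μ at *
  have hμ0 : (0 : ℝ) < μ := by exact_mod_cast hμ1
  have hP0 : (0 : ℝ) < (a * b * c : ℕ) := by
    have : 0 < a * b * c := Nat.mul_pos (Nat.mul_pos ha hb) hc
    exact_mod_cast this
  have hN0 : (0 : ℝ) < N := by exact_mod_cast hN
  have hs0 : (0 : ℝ) ≤ 1 / (2 * (N : ℝ)) := by positivity
  -- the height
  obtain ⟨Y, hY⟩ : ∃ Y : ℝ, Y = D ^ (1 / 2 + 1 / (2 * (N : ℝ))) := ⟨_, rfl⟩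
  have hY1 : 1 ≤ Y := by rw [hY]; exact Real.one_le_rpow hD1 (by linarith)
  have hDY : D ≤ Y ^ 2 := by
    rw [hY, ← Real.rpow_natCast (D ^ (1 / 2 + 1 / (2 * (N : ℝ)))) 2, ← Real.rpow_mul (by linarith)]
    push_cast
    nth_rewrite 1 [← Real.rpow_one D]
    exact Real.rpow_le_rpow_of_exponent_le hD1 (by linarith)
  obtain ⟨Z₁, hZ₁⟩ : ∃ Z₁ : ℕ, Z₁ = ⌈|(d : ℝ)| / (6 * ((a * b * c : ℕ) : ℝ))⌉₊ := ⟨_, rfl⟩
  obtain ⟨Z₂, hZ₂⟩ : ∃ Z₂ : ℕ, Z₂ = ⌈Y⌉₊ := ⟨_, rfl⟩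
  obtain ⟨Z, hZ⟩ : ∃ Z : ℕ, Z = max Z₁ Z₂ := ⟨_, rfl⟩
  have hZ1N : Z₁ ≤ Z := by rw [hZ]; exact le_max_left _ _
  have hZ2N : Z₂ ≤ Z := by rw [hZ]; exact le_max_right _ _
  have hZ1R : (Z₁ : ℝ) ≤ Z := by exact_mod_cast hZ1N
  have hZ2R : (Z₂ : ℝ) ≤ Z := by exact_mod_cast hZ2N
  have hZ1 : |(d : ℝ)| / (6 * ((a * b * c : ℕ) : ℝ)) ≤ Z := by
    refine le_trans ?_ hZ1R
    rw [hZ₁]; exact Nat.le_ceil _
  have hZ2 : Y ≤ Z := by
    refine le_trans ?_ hZ2R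
    rw [hZ₂]; exact Nat.le_ceil _
  have hZ0 : (1 : ℝ) ≤ Z := hY1.trans hZ2
  have hDZ : D ≤ (Z : ℝ) ^ 2 := hDY.trans (pow_le_pow_left₀ (by linarith) hZ2 2)
  have hdZ : |(d : ℝ)| ≤ 6 * (((a * b * c : ℕ) : ℝ) * Z) := by
    rw [div_le_iff₀ (by positivity)] at hZ1
    linarith
  have hPZ : ((a * b * c : ℕ) : ℝ) ≤ (Z : ℝ) ^ 4 := by
    refine hPD.trans ((pow_le_pow_left₀ (by linarith) hDZ 2).trans (le_of_eq ?_))
    ring
  have hd6 : |(d : ℝ)| ≤ 6 * (Z : ℝ) ^ 5 := by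
    have h5 : ((a * b * c : ℕ) : ℝ) * Z ≤ (Z : ℝ) ^ 4 * Z :=
      mul_le_mul_of_nonneg_right hPZ (by linarith)
    have h6 : (Z : ℝ) ^ 5 = (Z : ℝ) ^ 4 * Z := by ring
    rw [h6]; linarith
  have hZ5 : (0 : ℝ) ≤ (Z : ℝ) ^ 5 := by positivity
  have hm6 : (m' : ℝ) ≤ 6 * (Z : ℝ) ^ 5 := by
    have h5 : (m' : ℝ) ≤ (Z : ℝ) ^ 2 := hm'D.trans hDZ
    have h6 : (Z : ℝ) ^ 2 ≤ (Z : ℝ) ^ 5 := pow_le_pow_right₀ hZ0 (by norm_num)
    linarith
  obtain ⟨x, hxdef⟩ : ∃ x : ℕ, x = max d.natAbs m' := ⟨_, rfl⟩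
  rw [← hxdef] at hx hg hEE
  have hx6 : (x : ℝ) ≤ 6 * (Z : ℝ) ^ 5 := by
    rw [hxdef]; push_cast
    refine max_le ?_ hm6
    rw [Nat.cast_natAbs, Int.cast_abs]
    exact hd6
  have hx6N : x ≤ 6 * Z ^ 5 := by exact_mod_cast hx6
  have hX : X₀ ≤ Z := by
    by_contra hcon
    push Not at hcon
    have h5 : Z ^ 5 ≤ X₀ ^ 5 := Nat.pow_le_pow_left hcon.le 5
    omega
  have hZx1 : x₁ ≤ Z := by
    refine le_trans ?_ hX
    rw [hX₀]; exact le_max_left _ _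
  have hZy : Real.exp (5 ^ K : ℝ) ≤ Z := by
    have h5 : ⌈Real.exp (5 ^ K : ℝ)⌉₊ ≤ Z := by
      refine le_trans ?_ hX
      rw [hX₀]; exact le_max_right _ _
    exact (Nat.le_ceil _).trans (by exact_mod_cast h5)
  have h16Z : (0 : ℝ) < 16 * Z := by linarith
  obtain ⟨y, hy⟩ : ∃ y : ℝ, y = Real.log (16 * Z) := ⟨_, rfl⟩
  have hyy : (5 ^ K : ℝ) ≤ y := by
    rw [hy, Real.le_log_iff_exp_le h16Z]
    linarith
  have hy1 : 1 ≤ y := (one_le_pow₀ (by norm_num : (1 : ℝ) ≤ 5)).trans hyy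
  have hlogK : Real.log (x : ℝ) ^ K ≤ y ^ (K + 1) := by
    have hx1 : 1 ≤ x := by
      rw [hxdef]
      exact hm'1.trans (le_max_right _ _)
    have hx1R : (1 : ℝ) ≤ x := by exact_mod_cast hx1
    have h5 : Real.log (x : ℝ) ≤ 5 * y := by
      have h6 : (x : ℝ) ≤ (16 * Z) ^ 5 := by
        refine hx6.trans ?_
        rw [mul_pow]
        have : (6 : ℝ) ≤ 16 ^ 5 := by norm_num
        exact mul_le_mul_of_nonneg_right this hZ5
      have h7 := Real.log_le_log (by linarith) h6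
      rw [Real.log_pow, ← hy] at h7
      push_cast at h7
      exact h7
    have h8 : 0 ≤ Real.log (x : ℝ) := Real.log_nonneg hx1R
    calc Real.log (x : ℝ) ^ K ≤ (5 * y) ^ K := pow_le_pow_left₀ h8 h5 K
      _ = y ^ K * 5 ^ K := by rw [mul_pow, mul_comm]
      _ ≤ y ^ K * y := mul_le_mul_of_nonneg_left hyy (by positivity)
      _ = y ^ (K + 1) := (pow_succ y K).symm
  have hgcd : (Int.gcd d (a * b * c : ℕ) : ℝ) ≤ y ^ (K + 1) := hg.trans hlogK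
  have hEE' : (EE a b c : ℝ) ≤ y ^ (K + 1) := hEE.trans hlogK
  have hdI : |d| ≤ 6 * ((a : ℤ) * b * c * Z) := by
    have h5 : ((|d| : ℤ) : ℝ) ≤ ((6 * ((a : ℤ) * b * c * Z) : ℤ) : ℝ) := by
      push_cast
      push_cast at hdZ
      exact hdZ
    exact_mod_cast h5
  rw [hy] at hgcd hEE'
  rw [hY] at hZ2
  obtain ⟨p, q, r, hp, hq, hr, heq, hap, hbq, hcr⟩ := h1 a b c Z d hZx1 ha hb hc hAd hEE' hdI
    (pow_NATX N (b * c) Z D hN hD1 hbcD hZ2) (pow_NATX N (a * c) Z D hN hD1 hacD hZ2)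
    (pow_NATX N (a * b) Z D hN hD1 habD hZ2) hgcd
  refine ⟨p, q, r, hp, hq, hr, heq, ?_⟩
  -- bound for the primes
  have hp' : (p : ℝ) ≤ 16 * (D * Z) :=
    win_NATX a p 5 (b * c) Z D ha (by norm_num) (by rw [← mul_assoc a b c]; exact hap) hbcD
  have hq' : (q : ℝ) ≤ 16 * (D * Z) :=
    win_NATX b q 5 (a * c) Z D hb (by norm_num)
      (by rw [show b * (a * c) = a * b * c by ring]; exact hbq) hacD
  have hr' : (r : ℝ) ≤ 16 * (D * Z) :=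
    win_NATX c r 16 (a * b) Z D hc (by norm_num)
      (by rw [show c * (a * b) = a * b * c by ring]; exact hcr) habD
  have hmax : ((max p (max q r) : ℕ) : ℝ) ≤ 16 * (D * Z) := by
    push_cast
    exact max_le hp' (max_le hq' hr')
  refine hmax.trans ?_
  refine fin_NATX D (|(d : ℝ)| / μ) Z _ _ hD1 hs0 ?_ (by positivity) (by ring)
  rcases le_total Z₂ Z₁ with hc1 | hc1
  · left
    have e : Z = Z₁ := by rw [hZ]; exact max_eq_left hc1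
    have h5 : (Z : ℝ) ≤ |(d : ℝ)| / (6 * ((a * b * c : ℕ) : ℝ)) + 1 := by
      rw [e, hZ₁]
      exact (Nat.ceil_lt_add_one (by positivity)).le
    have h6 : D * Z ≤ D * (|(d : ℝ)| / (6 * ((a * b * c : ℕ) : ℝ)) + 1) :=
      mul_le_mul_of_nonneg_left h5 (by linarith)
    have h7 : D * (|(d : ℝ)| / (6 * ((a * b * c : ℕ) : ℝ))) = (1 / 6) * (|(d : ℝ)| / μ) := by
      rw [hD]; field_simp
    rw [mul_add, h7, mul_one] at h6
    exact h6
  · right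
    have e : Z = Z₂ := by rw [hZ]; exact max_eq_right hc1
    have h5 : (Z : ℝ) ≤ Y + 1 := by
      rw [e, hZ₂]
      exact (Nat.ceil_lt_add_one (by linarith)).le
    rw [← hY]
    exact mul_le_mul_of_nonneg_left h5 (by linarith)

end Pool.Agent.Helper83.E3
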